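import Pool.Agent.Y150.IX.Main

/-!
# Beilinson's arithmetic Hodge index conjecture for uniruled threefolds (helper150)
-/

set_option autoImplicit false

namespace Pool.Agent.Results.MP_e2c9e7_nt.UniruledThreefolds

open Pool.Agent.Y150.IX

/-- Let `V` be a threefold over a number field generated by products of the projective line with
surfaces and by threefolds which satisfy Beilinson's conjectures for one nef and big class, and let
`f : V → X` be a generically finite surjective morphism. Then Beilinson's second conjecture holds
for the cycles of codimension two on `X` and every nef and big class `L` on `X` whose inverse image
is in the given set of classes. -/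
theorem result (V X : Threefold) (s : Set V.N) (h : Generated V s) (f : Dominates V X)
    (L : X.N) (hL : L ∈ X.big) (hs : f.pullN L ∈ s) : X.Index L :=
  index_of_dominates h f hL hs

end Pool.Agent.Results.MP_e2c9e7_nt.UniruledThreefolds
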